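import Mathlib
import Pool.Agent.Results.MP_faea85_an.Hierarchy

/-!
# MP_e616d8 : weakly sequentially supercyclic, not weakly 1-sequentially supercyclic

Let `T` be a weakly sequentially hypercyclic operator on `X` which is not weakly 1-sequentially
hypercyclic (starting library, `Pool.Agent.Results.MP_faea85_an.Hierarchy`).  Then `T ⊕ 1` on
`X ⊕ 𝕜` is weakly sequentially supercyclic and not weakly 1-sequentially supercyclic.  A Banach
space `X` with a complemented copy of `ℓ_p` is isomorphic to `X ⊕ 𝕜`, which gives such operators on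
`X` itself.
-/

namespace Pool.Agent.Results.MP_e616d8_an.WeakSequentialSupercyclic

open Filter Topology
open scoped ENNReal

section defs

variable (𝕜 : Type) [RCLike 𝕜] {X : Type} [NormedAddCommGroup X] [NormedSpace 𝕜 X]

/-- The projective orbit `{c Tⁿ x : n ≥ 0, c ∈ 𝕜}`. -/
def projOrbit (T : X →L[𝕜] X) (x : X) : Set X := {y | ∃ (c : 𝕜) (n : ℕ), y = c • (T ^ n) x}

/-- The sequence `u` converges weakly to `y`. -/
def WeakLim (u : ℕ → X) (y : X) : Prop :=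
  ∀ φ : X →L[𝕜] 𝕜, Tendsto (fun k => φ (u k)) atTop (𝓝 (φ y))

/-- `[A]₁`: the set of all weak limits of sequences of elements of `A`. -/
def weakLimits (A : Set X) : Set X := {y | ∃ u : ℕ → X, (∀ k, u k ∈ A) ∧ WeakLim 𝕜 u y}

/-- The weak sequential closure of `A`: the intersection of all weakly sequentially closed sets
(sets `M` with `[M]₁ = M`) containing `A`. -/
def weakSeqClosure (A : Set X) : Set X := ⋂₀ {M : Set X | weakLimits 𝕜 M = M ∧ A ⊆ M}

/-- `T` is weakly sequentially supercyclic. -/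
def WeaklySequentiallySupercyclic (T : X →L[𝕜] X) : Prop :=
  ∃ x : X, weakSeqClosure 𝕜 (projOrbit 𝕜 T x) = Set.univ

/-- `T` is weakly 1-sequentially supercyclic. -/
def WeaklyOneSequentiallySupercyclic (T : X →L[𝕜] X) : Prop :=
  ∃ x : X, weakLimits 𝕜 (projOrbit 𝕜 T x) = Set.univ

/-- `Y` is isomorphic to a complemented subspace of `X`. -/
def Complemented (Y X : Type) [NormedAddCommGroup Y] [NormedSpace 𝕜 Y] [NormedAddCommGroup X]
    [NormedSpace 𝕜 X] : Prop :=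
  ∃ (i : Y →L[𝕜] X) (r : X →L[𝕜] Y), ∀ y, r (i y) = y

end defs

section product

variable {𝕜 : Type} [RCLike 𝕜] {X : Type} [NormedAddCommGroup X] [NormedSpace 𝕜 X]

theorem WeakLim.map {Y : Type} [NormedAddCommGroup Y] [NormedSpace 𝕜 Y] (A : X →L[𝕜] Y)
    {u : ℕ → X} {y : X} (h : WeakLim 𝕜 u y) : WeakLim 𝕜 (fun k => A (u k)) (A y) :=
  fun φ => h (φ.comp A)

theorem weakLim_of_tendsto {u : ℕ → X} {y : X} (h : Tendsto u atTop (𝓝 y)) : WeakLim 𝕜 u y :=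
  fun φ => (φ.continuous.tendsto _).comp h

/-- weak limits and scalars -/
theorem WeakLim.smul {u : ℕ → X} {y : X} (h : WeakLim 𝕜 u y) {c : ℕ → 𝕜} {d : 𝕜}
    (hc : Tendsto c atTop (𝓝 d)) : WeakLim 𝕜 (fun k => c k • u k) (d • y) := by
  intro φ
  simp only [map_smul]
  exact hc.smul (h φ)

theorem WeakLim.prod {Y : Type} [NormedAddCommGroup Y] [NormedSpace 𝕜 Y] {u : ℕ → X} {y : X}
    {v : ℕ → Y} {z : Y} (h : WeakLim 𝕜 u y) (h' : WeakLim 𝕜 v z) :
    WeakLim 𝕜 (fun k => (u k, v k)) (y, z) := by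
  intro φ
  have e : ∀ a b, φ (a, b) = φ.comp (ContinuousLinearMap.inl 𝕜 X Y) a +
      φ.comp (ContinuousLinearMap.inr 𝕜 X Y) b := by
    intro a b
    simp only [ContinuousLinearMap.comp_apply, ContinuousLinearMap.inl_apply,
      ContinuousLinearMap.inr_apply]
    rw [← map_add, Prod.mk_add_mk, add_zero, zero_add]
  simp only [e]
  exact (h _).add (h' _)

/-- The operator `T ⊕ 1` on `X ⊕ 𝕜`. -/
noncomputable def plusOne (T : X →L[𝕜] X) : (X × 𝕜) →L[𝕜] (X × 𝕜) :=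
  T.prodMap (ContinuousLinearMap.id 𝕜 𝕜)

theorem plusOne_pow (T : X →L[𝕜] X) (n : ℕ) (p : X × 𝕜) :
    ((plusOne T) ^ n) p = ((T ^ n) p.1, p.2) := by
  induction n generalizing p with
  | zero => rfl
  | succ n ih =>
    rw [pow_succ, pow_succ]
    change ((plusOne T) ^ n) (T p.1, p.2) = _
    rw [ih]; rfl

open Pool.Agent.Results.MP_faea85_an.Hierarchy in
theorem plusOne_seq {T : X →L[𝕜] X} {x : X} (h : Dense (orbitLimits 𝕜 T x)) :
    WeaklySequentiallySupercyclic 𝕜 (plusOne T) := by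
  refine ⟨(x, 1), Set.eq_univ_of_forall ?_⟩
  rintro ⟨z, s⟩
  rw [weakSeqClosure, Set.mem_sInter]
  rintro M ⟨hM, hO⟩
  have hMc : ∀ (u : ℕ → X × 𝕜) (y : X × 𝕜), (∀ k, u k ∈ M) → WeakLim 𝕜 u y → y ∈ M := by
    intro u y hu hy
    rw [← hM]; exact ⟨u, hu, hy⟩
  have h1 : ∀ y ∈ orbitLimits 𝕜 T x, ∀ c : 𝕜, c • ((y, 1) : X × 𝕜) ∈ M := by
    rintro y ⟨n, hn⟩ c
    have hn' : WeakLim 𝕜 (fun k => (T ^ n k) x) y := hn
    have h2 : WeakLim 𝕜 (fun k => c • (((T ^ n k) x, 1) : X × 𝕜)) (c • (y, 1)) :=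
      (hn'.prod (weakLim_of_tendsto tendsto_const_nhds)).smul tendsto_const_nhds
    refine hMc _ _ (fun k => hO ⟨c, n k, ?_⟩) h2
    rw [plusOne_pow]
  have h2 : ∀ (y : X) (c : 𝕜), c • ((y, 1) : X × 𝕜) ∈ M := by
    intro y c
    obtain ⟨v, hv, hvy⟩ := mem_closure_iff_seq_limit.1 (h y)
    refine hMc (fun k => c • ((v k, 1) : X × 𝕜)) _ (fun k => h1 _ (hv k) c)
      (weakLim_of_tendsto ?_)
    exact (hvy.prodMk_nhds tendsto_const_nhds).const_smul c
  have h3 : ∀ (z : X) (s : 𝕜), s ≠ 0 → ((z, s) : X × 𝕜) ∈ M := by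
    intro z s hs
    have := h2 (s⁻¹ • z) s
    rwa [Prod.smul_mk, smul_smul, mul_inv_cancel₀ hs, one_smul, smul_eq_mul, mul_one] at this
  by_cases hs : s = 0
  · subst hs
    refine hMc (fun k : ℕ => (z, ((k : 𝕜) + 1)⁻¹)) _
      (fun k => h3 _ _ (inv_ne_zero (by exact_mod_cast Nat.succ_ne_zero k)))
      (weakLim_of_tendsto (tendsto_const_nhds.prodMk_nhds ?_))
    simpa using tendsto_one_div_add_atTop_nhds_zero_nat (𝕜 := 𝕜)
  · exact h3 z s hs

open Pool.Agent.Results.MP_faea85_an.Hierarchy in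
theorem plusOne_not_one {T : X →L[𝕜] X} (h : ¬ IsWeaklyOneSequentiallyHypercyclic 𝕜 T) :
    ¬ WeaklyOneSequentiallySupercyclic 𝕜 (plusOne T) := by
  rintro ⟨⟨x, t⟩, hx⟩
  apply h
  have key : ∀ y : X, ((y, 1) : X × 𝕜) ∈ weakLimits 𝕜 (projOrbit 𝕜 (plusOne T) (x, t)) := by
    intro y; rw [hx]; trivial
  -- `t ≠ 0`
  have main : ∀ y : X, t ≠ 0 ∧ t • y ∈ orbitLimits 𝕜 T x := by
    intro y
    obtain ⟨u, hu, hlim⟩ := key y
    choose c n hcn using hu
    simp only [plusOne_pow] at hcn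
    have h1 : ∀ k, u k = (c k • (T ^ n k) x, c k * t) := fun k => by rw [hcn k]; rfl
    have hc : Tendsto (fun k => c k * t) atTop (𝓝 1) := by
      have := hlim (ContinuousLinearMap.snd 𝕜 X 𝕜)
      simpa [h1] using this
    have ht : t ≠ 0 := by
      rintro rfl
      simp only [mul_zero] at hc
      exact zero_ne_one (tendsto_nhds_unique tendsto_const_nhds hc)
    have hw : WeakLim 𝕜 (fun k => c k • (T ^ n k) x) y := by
      have := hlim.map (ContinuousLinearMap.fst 𝕜 X 𝕜)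
      simpa [h1] using this
    have hc2 : Tendsto c atTop (𝓝 t⁻¹) := by
      have := hc.mul_const t⁻¹
      simpa [mul_assoc, mul_inv_cancel₀ ht] using this
    have hc3 : Tendsto (fun k => (c k)⁻¹) atTop (𝓝 t) := by
      have := hc2.inv₀ (inv_ne_zero ht)
      simpa using this
    have hne : ∀ᶠ k in atTop, c k ≠ 0 := hc2.eventually_ne (inv_ne_zero ht)
    have hw2 := hw.smul hc3
    refine ⟨ht, n, fun φ => (hw2 φ).congr' ?_⟩
    filter_upwards [hne] with k hk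
    rw [smul_smul, inv_mul_cancel₀ hk, one_smul]
  refine ⟨x, Set.eq_univ_of_forall fun y => ?_⟩
  obtain ⟨ht, -⟩ := main 0
  have := (main (t⁻¹ • y)).2
  rwa [smul_smul, mul_inv_cancel₀ ht, one_smul] at this

end product

section transfer

variable {𝕜 : Type} [RCLike 𝕜] {X Y : Type} [NormedAddCommGroup X] [NormedSpace 𝕜 X]
  [NormedAddCommGroup Y] [NormedSpace 𝕜 Y]

/-- Conjugation with an isomorphism. -/
noncomputable def conj (e : X ≃L[𝕜] Y) (S : Y →L[𝕜] Y) : X →L[𝕜] X :=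
  (e.symm : Y →L[𝕜] X).comp (S.comp (e : X →L[𝕜] Y))

theorem conj_pow (e : X ≃L[𝕜] Y) (S : Y →L[𝕜] Y) (n : ℕ) (x : X) :
    ((conj e S) ^ n) x = e.symm ((S ^ n) (e x)) := by
  induction n generalizing x with
  | zero => simp
  | succ n ih =>
    rw [pow_succ, pow_succ]
    change ((conj e S) ^ n) (e.symm (S (e x))) = e.symm ((S ^ n) (S (e x)))
    rw [ih, e.apply_symm_apply]

theorem projOrbit_conj (e : X ≃L[𝕜] Y) (S : Y →L[𝕜] Y) (x : X) :
    projOrbit 𝕜 (conj e S) x = e ⁻¹' (projOrbit 𝕜 S (e x)) := by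
  ext y
  simp only [projOrbit, Set.mem_preimage, Set.mem_ofPred_eq, conj_pow]
  refine exists_congr fun c => exists_congr fun n => ?_
  rw [← map_smul e.symm, e.eq_symm_apply]

theorem weakLimits_preimage (e : X ≃L[𝕜] Y) (A : Set Y) :
    weakLimits 𝕜 (e ⁻¹' A) = e ⁻¹' (weakLimits 𝕜 A) := by
  ext y
  constructor
  · rintro ⟨u, hu, hl⟩
    exact ⟨fun k => e (u k), hu, hl.map (e : X →L[𝕜] Y)⟩
  · rintro ⟨u, hu, hl⟩
    refine ⟨fun k => e.symm (u k), fun k => ?_, ?_⟩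
    · rw [Set.mem_preimage, e.apply_symm_apply]; exact hu k
    · have := hl.map (e.symm : Y →L[𝕜] X)
      simpa using this

theorem conj_seq (e : X ≃L[𝕜] Y) {S : Y →L[𝕜] Y} (h : WeaklySequentiallySupercyclic 𝕜 S) :
    WeaklySequentiallySupercyclic 𝕜 (conj e S) := by
  obtain ⟨y, hy⟩ := h
  refine ⟨e.symm y, Set.eq_univ_of_forall fun z => ?_⟩
  rw [weakSeqClosure, Set.mem_sInter]
  rintro M ⟨hM, hO⟩
  have h1 : e z ∈ weakSeqClosure 𝕜 (projOrbit 𝕜 S y) := by rw [hy]; trivial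
  rw [weakSeqClosure, Set.mem_sInter] at h1
  have h2 := h1 (e.symm ⁻¹' M) ⟨by rw [weakLimits_preimage, hM], ?_⟩
  · rwa [Set.mem_preimage, e.symm_apply_apply] at h2
  · intro w hw
    apply hO
    rw [projOrbit_conj, Set.mem_preimage, e.apply_symm_apply, e.apply_symm_apply]
    exact hw

theorem conj_not_one (e : X ≃L[𝕜] Y) {S : Y →L[𝕜] Y}
    (h : ¬ WeaklyOneSequentiallySupercyclic 𝕜 S) :
    ¬ WeaklyOneSequentiallySupercyclic 𝕜 (conj e S) := by
  rintro ⟨x, hx⟩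
  refine h ⟨e x, Set.eq_univ_of_forall fun y => ?_⟩
  rw [projOrbit_conj, weakLimits_preimage] at hx
  have : e.symm y ∈ e ⁻¹' weakLimits 𝕜 (projOrbit 𝕜 S (e x)) := by rw [hx]; trivial
  rwa [Set.mem_preimage, e.apply_symm_apply] at this

end transfer

section hyperplane

variable {𝕜 : Type} [RCLike 𝕜]

/-- If `V ≅ V ⊕ 𝕜` is isomorphic to a complemented subspace of `X` then `X ≅ X ⊕ 𝕜`. -/
noncomputable def addLine {X V : Type} [NormedAddCommGroup X] [NormedSpace 𝕜 X]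
    [NormedAddCommGroup V] [NormedSpace 𝕜 V] (e : V ≃L[𝕜] (V × 𝕜)) (i : V →L[𝕜] X)
    (r : X →L[𝕜] V) (hir : ∀ v, r (i v) = v) : X ≃L[𝕜] (X × 𝕜) :=
  ContinuousLinearEquiv.equivOfInverse
    (((ContinuousLinearMap.id 𝕜 X - i.comp r) +
        i.comp ((ContinuousLinearMap.fst 𝕜 V 𝕜).comp ((e : V →L[𝕜] V × 𝕜).comp r))).prod
      ((ContinuousLinearMap.snd 𝕜 V 𝕜).comp ((e : V →L[𝕜] V × 𝕜).comp r)))
    ((ContinuousLinearMap.id 𝕜 X - i.comp r).comp (ContinuousLinearMap.fst 𝕜 X 𝕜) +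
      i.comp ((e.symm : V × 𝕜 →L[𝕜] V).comp
        ((r.comp (ContinuousLinearMap.fst 𝕜 X 𝕜)).prod (ContinuousLinearMap.snd 𝕜 X 𝕜))))
    (by
      intro x
      simp [hir])
    (by
      rintro ⟨z, t⟩
      simp [hir])

variable (p : ℝ≥0∞) [Fact (1 ≤ p)]

theorem memlp_succ (hp : p ≠ ∞) (f : ℕ → 𝕜) (hf : Memℓp f p) : Memℓp (fun n => f (n + 1)) p := by
  have hp0 : 0 < p.toReal := ENNReal.toReal_pos (by
    have : (1 : ℝ≥0∞) ≤ p := Fact.out
    exact (zero_lt_one.trans_le this).ne') hp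
  rw [memℓp_gen_iff hp0] at hf ⊢
  exact (summable_nat_add_iff 1).2 hf

/-- Add a first coordinate. -/
def consFun (t : 𝕜) (f : ℕ → 𝕜) : ℕ → 𝕜
  | 0 => t
  | n + 1 => f n

theorem memlp_cons (hp : p ≠ ∞) (t : 𝕜) (f : ℕ → 𝕜) (hf : Memℓp f p) :
    Memℓp (consFun t f) p := by
  have hp0 : 0 < p.toReal := ENNReal.toReal_pos (by
    have : (1 : ℝ≥0∞) ≤ p := Fact.out
    exact (zero_lt_one.trans_le this).ne') hp
  rw [memℓp_gen_iff hp0] at hf ⊢
  exact (summable_nat_add_iff 1).1 hf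

/-- The left shift on `ℓ_p`. -/
noncomputable def tl (hp : p ≠ ∞) (x : lp (fun _ : ℕ => 𝕜) p) : lp (fun _ : ℕ => 𝕜) p :=
  ⟨fun n => x (n + 1), memlp_succ p hp _ (lp.memℓp x)⟩

/-- The inverse map `(x, t) ↦ (t, x 0, x 1, …)`. -/
noncomputable def cn (hp : p ≠ ∞) (t : 𝕜) (x : lp (fun _ : ℕ => 𝕜) p) :
    lp (fun _ : ℕ => 𝕜) p :=
  ⟨consFun t (fun n => x n), memlp_cons p hp t (fun n => x n) (lp.memℓp x)⟩

theorem norm_tl_le (hp : p ≠ ∞) (x : lp (fun _ : ℕ => 𝕜) p) : ‖tl p hp x‖ ≤ ‖x‖ := by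
  have hp0 : 0 < p.toReal := ENNReal.toReal_pos (by
    have : (1 : ℝ≥0∞) ≤ p := Fact.out
    exact (zero_lt_one.trans_le this).ne') hp
  refine lp.norm_le_of_forall_sum_le hp0 (norm_nonneg x) fun s => ?_
  have h1 := lp.sum_rpow_le_norm_rpow hp0 x (s.map ⟨(· + 1), add_left_injective 1⟩)
  rw [Finset.sum_map] at h1
  exact h1

/-- `ℓ_p ≅ ℓ_p ⊕ 𝕜` as vector spaces. -/
noncomputable def lpLineL (hp : p ≠ ∞) :
    lp (fun _ : ℕ => 𝕜) p ≃ₗ[𝕜] (lp (fun _ : ℕ => 𝕜) p × 𝕜) where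
  toFun x := (tl p hp x, x 0)
  map_add' _ _ := rfl
  map_smul' _ _ := rfl
  invFun q := cn p hp q.2 q.1
  left_inv x := by
    apply lp.ext
    funext n
    rcases n with _ | n <;> rfl
  right_inv q := by
    rcases q with ⟨x, t⟩
    apply Prod.ext
    · apply lp.ext
      funext n
      rfl
    · rfl

/-- `ℓ_p ≅ ℓ_p ⊕ 𝕜`. -/
noncomputable def lpLine (hp : p ≠ ∞) :
    lp (fun _ : ℕ => 𝕜) p ≃L[𝕜] (lp (fun _ : ℕ => 𝕜) p × 𝕜) :=
  LinearEquiv.toContinuousLinearEquivOfContinuous (lpLineL p hp)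
    (by
      refine AddMonoidHomClass.continuous_of_bound _ 1 fun x => ?_
      rw [one_mul]
      exact max_le (norm_tl_le p hp x) (lp.norm_apply_le_norm (by
        have : (1 : ℝ≥0∞) ≤ p := Fact.out
        exact (zero_lt_one.trans_le this).ne') x 0))

end hyperplane

open Pool.Agent.Results.MP_faea85_an.Hierarchy in
theorem result (𝕜 : Type) [RCLike 𝕜] (X : Type) [NormedAddCommGroup X] [NormedSpace 𝕜 X]
    [CompleteSpace X] [TopologicalSpace.SeparableSpace X] (p : ℝ≥0∞) [Fact (1 ≤ p)]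
    (h1 : 1 < p) (h2 : p ≠ ∞)
    (hX : Complemented 𝕜 (lp (fun _ : ℕ => 𝕜) p) X) :
    ∃ T : X →L[𝕜] X, WeaklySequentiallySupercyclic 𝕜 T ∧
      ¬ WeaklyOneSequentiallySupercyclic 𝕜 T := by
  obtain ⟨-, ⟨T, -, ⟨x, hx⟩, hn, -⟩⟩ :=
    (Pool.Agent.Results.MP_faea85_an.Hierarchy.result 𝕜 X).2.1 ⟨p, inferInstance, h1, h2, hX⟩
  obtain ⟨i, r, hir⟩ := hX
  exact ⟨conj (addLine (lpLine p h2) i r hir) (plusOne T), conj_seq _ (plusOne_seq hx),
    conj_not_one _ (plusOne_not_one hn)⟩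

end Pool.Agent.Results.MP_e616d8_an.WeakSequentialSupercyclic
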